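import Pool.Agent.Q225.CoxA

set_option autoImplicit false

namespace Pool.Agent.Results.MP_70010f_co.DimensionFormula

open Pool.Agent.Q225.Cox

/-- **Answer to the question: the formula holds.** Let `R` be a finite root system (crystallographic
or not, reducible or not) spanning the Euclidean space `V ≠ 0`. The Coxeter complex of its
reflection group has dimension `dim V - 1` and the number of reflections is `|R| / 2`. The order
complex of the poset of non-empty convex subcomplexes has dimension `(dim V - 1) + |R| / 2`. -/
theorem result (V : Type) [NormedAddCommGroup V] [InnerProductSpace ℝ V] [FiniteDimensional ℝ V]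
    [Nontrivial V] (R : Finset V) (hR : IsRootSystem R) :
    Order.krullDim (Y R) = ((Module.finrank ℝ V - 1 + R.card / 2 : ℕ) : WithBot ℕ∞) := by
  refine main R hR.ne_zero hR.span (fun a ha => ?_) hR.line
  have h1 := hR.refl_mem a ha a ha
  have h2 : reflect a a = -a := by
    have h3 : inner ℝ a a ≠ 0 := inner_self_ne_zero.mpr (fun h => hR.ne_zero (h ▸ ha))
    unfold reflect
    rw [mul_div_assoc, div_self h3, mul_one, two_smul]
    abel
  rwa [h2] at h1

end Pool.Agent.Results.MP_70010f_co.DimensionFormula
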